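import Pool.Agent.Y857.WU.Base

/-!
# Project WU (helper857): WU-GR
-/

set_option autoImplicit false

open MeasureTheory ProbabilityTheory Filter Topology
open scoped ENNReal NNReal BigOperators unitInterval

namespace Pool.Agent.Y857.WU

open Pool.Agent.Y782.WU
open Classical

variable {V : Type} {G : SimpleGraph V}

/-- the maximum principle for the killed walk -/
theorem maxpr (h : Okg G) (k : ℕ) (x : V) (F H : V → ℝ≥0∞) (M : ℝ≥0∞) (hM : M ≠ ⊤)
    (hF : ∀ v, F v ≤ M) (hx : F x ≤ H x)
    (h1 : ∀ v, v ≠ x → F v ≤ (1 - kp k) * ∑' z, stp G v z * F z)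
    (h2 : ∀ v, v ≠ x → (1 - kp k) * ∑' z, stp G v z * H z ≤ H v) : ∀ v, F v ≤ H v := by
  set s : ℝ≥0∞ := ⨆ v, (F v - H v) with hs
  have hsM : s ≤ M := iSup_le fun v => tsub_le_self.trans (hF v)
  have hst : s ≠ ⊤ := ne_top_of_le_ne_top hM hsM
  have hle : ∀ v, F v ≤ s + H v := fun v => by
    rw [← tsub_le_iff_right]
    exact le_iSup (fun v => F v - H v) v
  have key : s ≤ (1 - kp k) * s := by
    refine iSup_le fun v => ?_
    rw [tsub_le_iff_right]
    by_cases hv : v = x
    · subst hv
      exact hx.trans le_add_self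
    · calc F v ≤ (1 - kp k) * ∑' z, stp G v z * F z := h1 v hv
        _ ≤ (1 - kp k) * ∑' z, stp G v z * (s + H z) := by
            gcongr with z
            exact hle z
        _ = (1 - kp k) * s + (1 - kp k) * ∑' z, stp G v z * H z := by
            simp_rw [mul_add]
            rw [ENNReal.tsum_add, ENNReal.tsum_mul_right, stp_sum h, one_mul, mul_add]
        _ ≤ (1 - kp k) * s + H v := by
            gcongr
            exact h2 v hv
  have hs0 : s = 0 := by
    by_contra hne
    have hlt : (1 - kp k) * s < 1 * s :=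
      ENNReal.mul_lt_mul_left hne hst (ENNReal.sub_lt_self ENNReal.one_ne_top one_ne_zero (kp_ne_zero k))
    rw [one_mul] at hlt
    exact absurd key (not_le.2 hlt)
  intro v
  have := hle v
  rwa [hs0, zero_add] at this

/-- the Green function is maximal on the diagonal -/
theorem gE_max (h : Okg G) (k : ℕ) (v x : V) : gE G k v x ≤ gE G k x x := by
  refine maxpr h k x (fun v => gE G k v x) (fun _ => gE G k x x) (kp k)⁻¹
    (ENNReal.inv_ne_top.2 (kp_ne_zero k)) (fun v => gE_le h k v x) le_rfl ?_ ?_ v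
  · intro v hv
    show gE G k v x ≤ _
    rw [gE_eq k v x, if_neg hv, zero_add]
  · intro v hv
    rw [ENNReal.tsum_mul_right, stp_sum h, one_mul]
    exact mul_le_of_le_one_left' tsub_le_self

/-- the strong Markov inequality -/
theorem gE_mul (h : Okg G) (k : ℕ) (v x c : V) :
    gE G k v x * gE G k x c ≤ gE G k x x * gE G k v c := by
  refine maxpr h k x (fun v => gE G k v x * gE G k x c) (fun v => gE G k x x * gE G k v c)
    ((kp k)⁻¹ * (kp k)⁻¹)
    (ENNReal.mul_ne_top (ENNReal.inv_ne_top.2 (kp_ne_zero k)) (ENNReal.inv_ne_top.2 (kp_ne_zero k)))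
    (fun v => mul_le_mul' (gE_le h k v x) (gE_le h k x c)) le_rfl ?_ ?_ v
  · intro v hv
    show gE G k v x * gE G k x c ≤ _
    have e : (1 - kp k) * ∑' z, stp G v z * (gE G k z x * gE G k x c) =
        ((1 - kp k) * ∑' z, stp G v z * gE G k z x) * gE G k x c := by
      simp_rw [← mul_assoc]
      rw [ENNReal.tsum_mul_right, mul_assoc]
    rw [e]
    nth_rewrite 1 [gE_eq k v x]
    rw [if_neg hv, zero_add]
  · intro v hv
    have e : (1 - kp k) * ∑' z, stp G v z * (gE G k x x * gE G k z c) =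
        gE G k x x * ((1 - kp k) * ∑' z, stp G v z * gE G k z c) := by
      have e1 : ∀ z, stp G v z * (gE G k x x * gE G k z c) =
          gE G k x x * (stp G v z * gE G k z c) := fun z => by ring
      simp_rw [e1, ENNReal.tsum_mul_left]
      ring
    rw [e]
    gcongr
    rw [gE_eq k v c]
    exact le_add_self

/-- the probability of hitting `x` -/
noncomputable def uE (G : SimpleGraph V) (k : ℕ) (x v : V) : ℝ≥0∞ := gE G k v x * (gE G k x x)⁻¹

theorem uE_le (h : Okg G) (k : ℕ) (x v : V) : uE G k x v ≤ 1 := by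
  unfold uE
  rw [← ENNReal.mul_inv_cancel (gE_xx_ne_zero k x) (gE_ne_top h k x x)]
  gcongr
  exact gE_max h k v x

theorem uE_self (h : Okg G) (k : ℕ) (x : V) : uE G k x x = 1 := by
  unfold uE
  exact ENNReal.mul_inv_cancel (gE_xx_ne_zero k x) (gE_ne_top h k x x)

theorem uE_mul (h : Okg G) (k : ℕ) (x v c : V) : uE G k x v * ab G k x c ≤ ab G k v c := by
  unfold uE
  rw [ab_eq, ab_eq]
  calc gE G k v x * (gE G k x x)⁻¹ * (kp k * gE G k x c)
      = kp k * (gE G k x x)⁻¹ * (gE G k v x * gE G k x c) := by ring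
    _ ≤ kp k * (gE G k x x)⁻¹ * (gE G k x x * gE G k v c) :=
        mul_le_mul' le_rfl (gE_mul h k v x c)
    _ = kp k * ((gE G k x x) * (gE G k x x)⁻¹) * gE G k v c := by ring
    _ = kp k * gE G k v c := by
        rw [ENNReal.mul_inv_cancel (gE_xx_ne_zero k x) (gE_ne_top h k x x), mul_one]

theorem tsum_sub_gen {ι : Type} {f g : ι → ℝ≥0∞} (h1 : ∑' i, g i ≠ ⊤) (h2 : ∀ i, g i ≤ f i) :
    ∑' i, (f i - g i) = ∑' i, f i - ∑' i, g i := by
  refine ENNReal.eq_sub_of_add_eq h1 ?_
  rw [← ENNReal.tsum_add]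
  exact tsum_congr fun i => tsub_add_cancel_of_le (h2 i)

theorem l1_le (h : Okg G) (k : ℕ) (x v : V) :
    l1 (ab G k x) (ab G k v) ≤ 2 * (1 - uE G k x v) := by
  have hut : uE G k x v ≠ ⊤ := ne_top_of_le_ne_top ENNReal.one_ne_top (uE_le h k x v)
  have hsum : ∑' c, uE G k x v * ab G k x c = uE G k x v := by
    rw [ENNReal.tsum_mul_left, ab_sum h, mul_one]
  have h1 : ∑' c, (ab G k x c - ab G k v c) ≤ 1 - uE G k x v := by
    calc ∑' c, (ab G k x c - ab G k v c) ≤ ∑' c, (ab G k x c - uE G k x v * ab G k x c) :=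
          ENNReal.tsum_le_tsum fun c => tsub_le_tsub_left (uE_mul h k x v c) _
      _ = ∑' c, ab G k x c - ∑' c, uE G k x v * ab G k x c := by
          refine tsum_sub_gen (by rw [hsum]; exact hut) ?_
          intro c
          exact mul_le_of_le_one_left' (uE_le h k x v)
      _ = 1 - uE G k x v := by rw [hsum, ab_sum h]
  have h2 : ∑' c, (ab G k v c - ab G k x c) ≤ 1 - uE G k x v := by
    calc ∑' c, (ab G k v c - ab G k x c) ≤ ∑' c, (ab G k v c - uE G k x v * ab G k x c) :=
          ENNReal.tsum_le_tsum fun c => tsub_le_tsub_left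
            (mul_le_of_le_one_left' (uE_le h k x v)) _
      _ = ∑' c, ab G k v c - ∑' c, uE G k x v * ab G k x c := by
          refine tsum_sub_gen (by rw [hsum]; exact hut) ?_
          intro c
          exact uE_mul h k x v c
      _ = 1 - uE G k x v := by rw [hsum, ab_sum h]
  unfold l1
  rw [ENNReal.tsum_add, two_mul]
  exact add_le_add h1 h2

theorem uE_green (h : Okg G) (k : ℕ) (x : V) :
    1 ≤ (gE G k x x)⁻¹ + ∑' z, stp G x z * uE G k x z := by
  have e1 : gE G k x x ≤ 1 + ∑' z, stp G x z * gE G k z x := by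
    nth_rewrite 1 [gE_eq k x x]
    rw [if_pos rfl]
    gcongr
    exact mul_le_of_le_one_left' tsub_le_self
  calc (1 : ℝ≥0∞) = gE G k x x * (gE G k x x)⁻¹ :=
        (ENNReal.mul_inv_cancel (gE_xx_ne_zero k x) (gE_ne_top h k x x)).symm
    _ ≤ (1 + ∑' z, stp G x z * gE G k z x) * (gE G k x x)⁻¹ := by gcongr
    _ = (gE G k x x)⁻¹ + ∑' z, stp G x z * uE G k x z := by
        rw [add_mul, one_mul, ← ENNReal.tsum_mul_right]
        congr 1
        refine tsum_congr fun z => ?_
        unfold uE
        rw [mul_assoc]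

theorem qq_le (h : Okg G) (k : ℕ) (x : V) :
    qq G k x ≤ 2 * dgr G x * (gE G k x x)⁻¹ := by
  have h1 : ∑' w, stp G x w * (1 - uE G k x w) ≤ (gE G k x x)⁻¹ := by
    have hfin : ∑' z, stp G x z * uE G k x z ≤ 1 := by
      rw [← stp_sum h x]
      exact ENNReal.tsum_le_tsum fun z => mul_le_of_le_one_right' (uE_le h k x z)
    calc ∑' w, stp G x w * (1 - uE G k x w)
        = ∑' w, (stp G x w - stp G x w * uE G k x w) := by
          refine tsum_congr fun w => ?_
          rw [ENNReal.mul_sub (fun _ _ => ?_), mul_one]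
          refine ne_top_of_le_ne_top ENNReal.one_ne_top ?_
          rw [← stp_sum h x]
          exact ENNReal.le_tsum w
      _ = ∑' w, stp G x w - ∑' w, stp G x w * uE G k x w := by
          refine tsum_sub_gen (ne_top_of_le_ne_top ENNReal.one_ne_top hfin) ?_
          intro c
          exact mul_le_of_le_one_right' (uE_le h k x c)
      _ ≤ (gE G k x x)⁻¹ := by
          rw [stp_sum h, tsub_le_iff_right]
          exact uE_green h k x
  calc qq G k x ≤ ∑' w, 2 * dgr G x * (stp G x w * (1 - uE G k x w)) := by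
        unfold qq
        refine ENNReal.tsum_le_tsum fun w => ?_
        by_cases hw : G.Adj x w
        · rw [if_pos hw]
          refine (l1_le h k x w).trans (le_of_eq ?_)
          have := dgr_stp h x w
          rw [if_pos hw] at this
          calc 2 * (1 - uE G k x w) = 2 * ((dgr G x * stp G x w) * (1 - uE G k x w)) := by
                rw [this, one_mul]
            _ = _ := by ring
        · rw [if_neg hw]
          exact zero_le
    _ = 2 * dgr G x * ∑' w, stp G x w * (1 - uE G k x w) := ENNReal.tsum_mul_left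
    _ ≤ 2 * dgr G x * (gE G k x x)⁻¹ := by gcongr

theorem inv_gE_tendsto (hR : Rec G) (x : V) :
    Tendsto (fun k => (gE G k x x)⁻¹) atTop (𝓝 0) := by
  have := tendsto_inv_iff.2 (gE_top hR x)
  simpa using this

/-- WU-GR -/
theorem gr : S_GR := by
  intro V G h
  refine ⟨fun k v => ab_sum h k v, fun k w => ab_sum_left h k w, fun hR v => ?_⟩
  have h1 : Tendsto (fun k => 2 * (dgr G v : ℝ≥0∞) * (gE G k v v)⁻¹) atTop (𝓝 0) := by
    have h2 := ENNReal.Tendsto.const_mul (a := 2 * (dgr G v : ℝ≥0∞)) (inv_gE_tendsto hR v)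
      (Or.inr (ENNReal.mul_ne_top ENNReal.ofNat_ne_top (dgr_top v)))
    rwa [mul_zero] at h2
  exact tendsto_of_tendsto_of_tendsto_of_le_of_le tendsto_const_nhds h1 (fun k => zero_le)
    (fun k => qq_le h k v)

end Pool.Agent.Y857.WU
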