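import Pool.Agent.Y857.WU.GR

/-!
# Project WU (helper857): WU-TF
-/

set_option autoImplicit false

open MeasureTheory ProbabilityTheory Filter Topology
open scoped ENNReal NNReal BigOperators unitInterval

namespace Pool.Agent.Y857.WU

open Pool.Agent.Y782.WU
open Classical

variable {V : Type} {G : SimpleGraph V}

/-- the Dirichlet energy -/
noncomputable def En (G : SimpleGraph V) (g : V → ℝ) : ℝ≥0∞ :=
  ∑' v, ∑' w, (if G.Adj v w then ENNReal.ofReal ((g v - g w) ^ 2) else 0)

theorem uE_ne_top (h : Okg G) (k : ℕ) (x v : V) : uE G k x v ≠ ⊤ :=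
  ne_top_of_le_ne_top ENNReal.one_ne_top (uE_le h k x v)

theorem uE_dgr_fin (h : Okg G) (k : ℕ) (x : V) :
    ∑' v, (dgr G v : ℝ≥0∞) * uE G k x v ≠ ⊤ := by
  have e : ∀ v, (dgr G v : ℝ≥0∞) * uE G k x v = (dgr G v * gE G k v x) * (gE G k x x)⁻¹ := by
    intro v; unfold uE; rw [mul_assoc]
  simp_rw [e]
  rw [ENNReal.tsum_mul_right, gE_dgr h]
  exact ENNReal.mul_ne_top (ENNReal.mul_ne_top (dgr_top x) (ENNReal.inv_ne_top.2 (kp_ne_zero k)))
    (ENNReal.inv_ne_top.2 (gE_xx_ne_zero k x))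

theorem adj_sum (h : Okg G) (v : V) (c : ℝ≥0∞) :
    ∑' w, (if G.Adj v w then c else 0) = dgr G v * c := by
  have e : ∀ w, (if G.Adj v w then c else 0) = dgr G v * stp G v w * c := by
    intro w
    rw [dgr_stp h]
    split_ifs <;> simp
  simp_rw [e]
  rw [ENNReal.tsum_mul_right, ENNReal.tsum_mul_left, stp_sum h, mul_one]

/-- the product sum -/
noncomputable def Cs (G : SimpleGraph V) (k : ℕ) (x : V) : ℝ≥0∞ :=
  ∑' v, ∑' w, (if G.Adj v w then uE G k x v * uE G k x w else 0)

/-- the square sum -/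
noncomputable def Ss (G : SimpleGraph V) (k : ℕ) (x : V) : ℝ≥0∞ :=
  ∑' v, (dgr G v : ℝ≥0∞) * (uE G k x v) ^ 2

theorem Cs_ne (h : Okg G) (k : ℕ) (x : V) : Cs G k x ≠ ⊤ := by
  refine ne_top_of_le_ne_top (uE_dgr_fin h k x) ?_
  unfold Cs
  refine ENNReal.tsum_le_tsum fun v => ?_
  rw [← adj_sum h v]
  refine ENNReal.tsum_le_tsum fun w => ?_
  split_ifs
  · exact mul_le_of_le_one_right' (uE_le h k x w)
  · exact le_rfl

theorem Ss_le (h : Okg G) (k : ℕ) (x : V) :
    Ss G k x ≤ dgr G x * (gE G k x x)⁻¹ + Cs G k x := by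
  have e0 : (dgr G x : ℝ≥0∞) * (gE G k x x)⁻¹ =
      ∑' v, (if v = x then (dgr G x : ℝ≥0∞) * (gE G k x x)⁻¹ else 0) := by
    rw [tsum_eq_single x (fun v hv => if_neg hv), if_pos rfl]
  rw [e0]
  unfold Ss Cs
  rw [← ENNReal.tsum_add]
  refine ENNReal.tsum_le_tsum fun v => ?_
  have hu : uE G k x v ≤ (if v = x then (gE G k x x)⁻¹ else 0) + ∑' z, stp G v z * uE G k x z := by
    unfold uE
    simp_rw [← mul_assoc]
    rw [ENNReal.tsum_mul_right]
    nth_rewrite 1 [gE_eq k v x]
    rw [add_mul]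
    refine add_le_add (le_of_eq ?_) ?_
    · split_ifs <;> simp
    · refine mul_le_mul' ?_ le_rfl
      exact mul_le_of_le_one_left' tsub_le_self
  calc (dgr G v : ℝ≥0∞) * uE G k x v ^ 2 = dgr G v * uE G k x v * uE G k x v := by ring
    _ ≤ dgr G v * uE G k x v *
        ((if v = x then (gE G k x x)⁻¹ else 0) + ∑' z, stp G v z * uE G k x z) :=
        mul_le_mul' le_rfl hu
    _ = dgr G v * uE G k x v * (if v = x then (gE G k x x)⁻¹ else 0) +
        ∑' z, (dgr G v * stp G v z) * (uE G k x v * uE G k x z) := by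
        rw [mul_add, ← ENNReal.tsum_mul_left]
        congr 1
        refine tsum_congr fun z => ?_
        ring
    _ ≤ _ := by
        refine add_le_add ?_ ?_
        · by_cases hv : v = x
          · subst hv
            rw [if_pos rfl, if_pos rfl, uE_self h, mul_one]
          · rw [if_neg hv, if_neg hv, mul_zero]
        · refine ENNReal.tsum_le_tsum fun w => ?_
          rw [dgr_stp h]
          split_ifs <;> simp

theorem sq_id (a b : ℝ≥0∞) (ha : a ≠ ⊤) (hb : b ≠ ⊤) :
    ENNReal.ofReal ((a.toReal - b.toReal) ^ 2) + 2 * (a * b) = a ^ 2 + b ^ 2 := by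
  lift a to ℝ≥0 using ha
  lift b to ℝ≥0 using hb
  have h1 : (2 : ℝ≥0∞) * (a * b) = ENNReal.ofReal (2 * (a * b)) := by
    rw [ENNReal.ofReal_mul (by norm_num), ENNReal.ofReal_mul (by positivity)]
    simp
  have h2 : (a : ℝ≥0∞) ^ 2 + (b : ℝ≥0∞) ^ 2 = ENNReal.ofReal ((a : ℝ) ^ 2 + (b : ℝ) ^ 2) := by
    rw [ENNReal.ofReal_add (by positivity) (by positivity), ENNReal.ofReal_pow (by positivity),
      ENNReal.ofReal_pow (by positivity)]
    simp
  rw [h1, h2, ← ENNReal.ofReal_add (by positivity) (by positivity)]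
  congr 1
  simp only [ENNReal.coe_toReal]
  ring

theorem En_id (h : Okg G) (k : ℕ) (x : V) :
    En G (fun v => (uE G k x v).toReal) + 2 * Cs G k x = 2 * Ss G k x := by
  have e1 : En G (fun v => (uE G k x v).toReal) + 2 * Cs G k x =
      ∑' v, ∑' w, (if G.Adj v w then (uE G k x v) ^ 2 + (uE G k x w) ^ 2 else 0) := by
    unfold En Cs
    rw [← ENNReal.tsum_mul_left, ← ENNReal.tsum_add]
    refine tsum_congr fun v => ?_
    rw [← ENNReal.tsum_mul_left, ← ENNReal.tsum_add]
    refine tsum_congr fun w => ?_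
    split_ifs
    · exact sq_id _ _ (uE_ne_top h k x v) (uE_ne_top h k x w)
    · simp
  have e2 : ∀ v w : V, (if G.Adj v w then (uE G k x v) ^ 2 + (uE G k x w) ^ 2 else 0) =
      (if G.Adj v w then (uE G k x v) ^ 2 else 0) + (if G.Adj v w then (uE G k x w) ^ 2 else 0) := by
    intro v w
    split_ifs <;> simp
  rw [e1]
  simp_rw [e2, ENNReal.tsum_add]
  have e3 : ∑' v, ∑' w, (if G.Adj v w then (uE G k x v) ^ 2 else 0) = Ss G k x := by
    unfold Ss
    exact tsum_congr fun v => adj_sum h v _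
  have e4 : ∑' v, ∑' w, (if G.Adj v w then (uE G k x w) ^ 2 else 0) = Ss G k x := by
    rw [ENNReal.tsum_comm, ← e3]
    refine tsum_congr fun v => tsum_congr fun w => ?_
    simp only [G.adj_comm]
  rw [e3, e4, two_mul]

theorem En_le (h : Okg G) (k : ℕ) (x : V) :
    En G (fun v => (uE G k x v).toReal) ≤ 2 * dgr G x * (gE G k x x)⁻¹ := by
  have h1 := En_id h k x
  have h2 := Ss_le h k x
  have h3 : En G (fun v => (uE G k x v).toReal) + 2 * Cs G k x ≤
      2 * dgr G x * (gE G k x x)⁻¹ + 2 * Cs G k x := by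
    rw [h1]
    calc 2 * Ss G k x ≤ 2 * (dgr G x * (gE G k x x)⁻¹ + Cs G k x) := by gcongr
      _ = _ := by ring
  exact (ENNReal.add_le_add_iff_right (ENNReal.mul_ne_top ENNReal.ofNat_ne_top (Cs_ne h k x))).1 h3

theorem En_tendsto (h : Okg G) (hR : Rec G) (x : V) :
    Tendsto (fun k => En G (fun v => (uE G k x v).toReal)) atTop (𝓝 0) := by
  have h1 : Tendsto (fun k => 2 * (dgr G x : ℝ≥0∞) * (gE G k x x)⁻¹) atTop (𝓝 0) := by
    have h2 := ENNReal.Tendsto.const_mul (a := 2 * (dgr G x : ℝ≥0∞)) (inv_gE_tendsto hR x)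
      (Or.inr (ENNReal.mul_ne_top ENNReal.ofNat_ne_top (dgr_top x)))
    rwa [mul_zero] at h2
  exact tendsto_of_tendsto_of_tendsto_of_le_of_le tendsto_const_nhds h1 (fun k => zero_le)
    (fun k => En_le h k x)

theorem En_edge (g : V → ℝ) {v w : V} (hvw : G.Adj v w) :
    ENNReal.ofReal ((g v - g w) ^ 2) ≤ En G g := by
  unfold En
  calc ENNReal.ofReal ((g v - g w) ^ 2) =
        (if G.Adj v w then ENNReal.ofReal ((g v - g w) ^ 2) else 0) := (if_pos hvw).symm
    _ ≤ ∑' w, (if G.Adj v w then ENNReal.ofReal ((g v - g w) ^ 2) else 0) :=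
        ENNReal.le_tsum (f := fun w => if G.Adj v w then ENNReal.ofReal ((g v - g w) ^ 2) else 0) w
    _ ≤ _ := ENNReal.le_tsum
        (f := fun v => ∑' w, (if G.Adj v w then ENNReal.ofReal ((g v - g w) ^ 2) else 0)) v

theorem u_tendsto (h : Okg G) (hR : Rec G) (x y : V) :
    Tendsto (fun k => (uE G k x y).toReal) atTop (𝓝 1) := by
  obtain ⟨p⟩ := h.2.2.1.preconnected y x
  induction p with
  | nil =>
    simp_rw [uE_self h]
    simp
  | @cons a b c hab p ih =>
    have hd : Tendsto (fun k => (uE G k c a).toReal - (uE G k c b).toReal) atTop (𝓝 0) := by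
      have h1 : Tendsto (fun k => ENNReal.ofReal
          (((uE G k c a).toReal - (uE G k c b).toReal) ^ 2)) atTop (𝓝 0) :=
        tendsto_of_tendsto_of_tendsto_of_le_of_le tendsto_const_nhds (En_tendsto h hR c)
          (fun k => zero_le) (fun k => En_edge (fun v => (uE G k c v).toReal) hab)
      have h2 : Tendsto (fun k => (ENNReal.ofReal
          (((uE G k c a).toReal - (uE G k c b).toReal) ^ 2)).toReal) atTop (𝓝 0) := by
        have := (ENNReal.tendsto_toReal ENNReal.zero_ne_top).comp h1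
        rw [ENNReal.toReal_zero] at this
        exact this
      have h3 : Tendsto (fun k => ((uE G k c a).toReal - (uE G k c b).toReal) ^ 2) atTop (𝓝 0) := by
        refine h2.congr fun k => ?_
        exact ENNReal.toReal_ofReal (sq_nonneg _)
      have h4 := h3.sqrt
      simp only [Real.sqrt_sq_eq_abs, Real.sqrt_zero] at h4
      exact tendsto_zero_iff_abs_tendsto_zero _ |>.2 h4
    have := hd.add ih
    simpa using this

/-- the cut-off -/
noncomputable def cut (t : ℝ) : ℝ := min 1 (max 0 (4 * (t - 1 / 4)))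

theorem cut_nonneg (t : ℝ) : 0 ≤ cut t := le_min zero_le_one (le_max_left _ _)
theorem cut_le (t : ℝ) : cut t ≤ 1 := min_le_left _ _
theorem cut_one {t : ℝ} (ht : 1 / 2 ≤ t) : cut t = 1 := by
  unfold cut
  exact min_eq_left (le_max_of_le_right (by linarith))
theorem cut_zero {t : ℝ} (ht : t ≤ 1 / 4) : cut t = 0 := by
  unfold cut
  rw [max_eq_left (by linarith)]
  norm_num
theorem cut_lip (s t : ℝ) : |cut s - cut t| ≤ 4 * |s - t| := by
  unfold cut
  calc |min 1 (max 0 (4 * (s - 1 / 4))) - min 1 (max 0 (4 * (t - 1 / 4)))|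
      ≤ |max 0 (4 * (s - 1 / 4)) - max 0 (4 * (t - 1 / 4))| := by
        have := abs_min_sub_min_le_max 1 (max 0 (4 * (s - 1 / 4))) 1 (max 0 (4 * (t - 1 / 4)))
        simpa using this
    _ ≤ |4 * (s - 1 / 4) - 4 * (t - 1 / 4)| := by
        have := abs_max_sub_max_le_max 0 (4 * (s - 1 / 4)) 0 (4 * (t - 1 / 4))
        simpa using this
    _ = 4 * |s - t| := by
        rw [← mul_sub, abs_mul]
        norm_num
theorem cut_sq (s t : ℝ) : (cut s - cut t) ^ 2 ≤ 16 * (s - t) ^ 2 := by
  have h1 := cut_lip s t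
  have h2 : |cut s - cut t| ^ 2 ≤ (4 * |s - t|) ^ 2 := pow_le_pow_left₀ (abs_nonneg _) h1 2
  rw [mul_pow, sq_abs, sq_abs] at h2
  linarith

/-- WU-TF -/
theorem tf : S_TF := by
  intro V G h hR B δ hδ
  have := h.1
  obtain ⟨x⟩ : Nonempty V := inferInstance
  have h1 : ∀ᶠ k in atTop, ∀ y ∈ B, 1 / 2 ≤ (uE G k x y).toReal := by
    rw [Filter.eventually_all_finset]
    intro y _
    exact ((u_tendsto h hR x y).eventually_const_le (by norm_num))
  have h2 : ∀ᶠ k in atTop, En G (fun v => (uE G k x v).toReal) < ENNReal.ofReal (δ / 16) :=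
    (En_tendsto h hR x).eventually_lt_const (by rw [ENNReal.ofReal_pos]; positivity)
  obtain ⟨k, hk1, hk2⟩ := (h1.and h2).exists
  refine ⟨fun v => cut (uE G k x v).toReal, fun v => ⟨cut_nonneg _, cut_le _⟩,
    fun v hv => cut_one (hk1 v hv), ?_, ?_⟩
  · have hsum : ∑' v, uE G k x v ≠ ⊤ := by
      refine ne_top_of_le_ne_top (uE_dgr_fin h k x) (ENNReal.tsum_le_tsum fun v => ?_)
      exact le_mul_of_one_le_left' (one_le_dgr h v)
    have hfin : {v | ENNReal.ofReal (1 / 4) ≤ uE G k x v}.Finite :=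
      ENNReal.finite_const_le_of_tsum_ne_top hsum (by rw [ne_eq, ENNReal.ofReal_eq_zero]; norm_num)
    refine hfin.subset fun v hv => ?_
    simp only [Set.mem_ofPred_eq] at hv ⊢
    by_contra hlt
    apply hv
    apply cut_zero
    rw [not_le] at hlt
    have := ENNReal.toReal_mono ENNReal.ofReal_ne_top hlt.le
    rwa [ENNReal.toReal_ofReal (by norm_num)] at this
  · calc ∑' v, ∑' w, (if G.Adj v w then ENNReal.ofReal
          ((cut (uE G k x v).toReal - cut (uE G k x w).toReal) ^ 2) else 0)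
        ≤ ∑' v, ∑' w, (ENNReal.ofReal 16 * if G.Adj v w then ENNReal.ofReal
          (((uE G k x v).toReal - (uE G k x w).toReal) ^ 2) else 0) := by
          refine ENNReal.tsum_le_tsum fun v => ENNReal.tsum_le_tsum fun w => ?_
          split_ifs
          · rw [← ENNReal.ofReal_mul (by norm_num)]
            exact ENNReal.ofReal_le_ofReal (cut_sq _ _)
          · exact zero_le
      _ = ENNReal.ofReal 16 * En G (fun v => (uE G k x v).toReal) := by
          unfold En
          simp_rw [ENNReal.tsum_mul_left]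
      _ ≤ ENNReal.ofReal 16 * ENNReal.ofReal (δ / 16) := by
          gcongr
      _ = ENNReal.ofReal δ := by
          rw [← ENNReal.ofReal_mul (by norm_num)]
          congr 1
          ring

end Pool.Agent.Y857.WU
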