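import Pool.Agent.Y782.WU.Stm

/-!
# Project WU (helper857): killed random walk kernels, basic facts
-/

set_option autoImplicit false

open MeasureTheory ProbabilityTheory Filter Topology
open scoped ENNReal NNReal BigOperators unitInterval

namespace Pool.Agent.Y857.WU

open Pool.Agent.Y782.WU
open Classical

variable {V : Type} {G : SimpleGraph V}

theorem exists_adj (h : Okg G) (v : V) : ∃ u, G.Adj v u := by
  obtain ⟨hi, hc, hconn, hf⟩ := h
  obtain ⟨w, hw⟩ := exists_ne v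
  obtain ⟨p⟩ := hconn.preconnected v w
  cases p with
  | nil => exact absurd rfl hw
  | cons hadj _ => exact ⟨_, hadj⟩

theorem dgr_pos (h : Okg G) (v : V) : 1 ≤ dgr G v := by
  obtain ⟨u, hu⟩ := exists_adj h v
  unfold dgr
  have hmem : u ∈ G.neighborSet v := hu
  exact Nat.one_le_iff_ne_zero.2 (Set.ncard_ne_zero_of_mem hmem (h.2.2.2 v))

theorem one_le_dgr (h : Okg G) (v : V) : (1 : ℝ≥0∞) ≤ dgr G v := by
  exact_mod_cast dgr_pos h v

theorem dgr_ne (h : Okg G) (v : V) : (dgr G v : ℝ≥0∞) ≠ 0 := by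
  have := dgr_pos h v
  simp
  omega

theorem dgr_top (v : V) : (dgr G v : ℝ≥0∞) ≠ ⊤ := ENNReal.natCast_ne_top _

theorem stp_adj {v w : V} (h : G.Adj v w) : stp G v w = (dgr G v : ℝ≥0∞)⁻¹ := by
  unfold stp; rw [if_pos h]

theorem stp_nadj {v w : V} (h : ¬ G.Adj v w) : stp G v w = 0 := by
  unfold stp; rw [if_neg h]

theorem stp_sum (h : Okg G) (v : V) : ∑' w, stp G v w = 1 := by
  have h1 : ∀ w, stp G v w = (G.neighborSet v).indicator (fun _ => (dgr G v : ℝ≥0∞)⁻¹) w := by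
    intro w
    by_cases hw : G.Adj v w
    · rw [stp_adj hw, Set.indicator_of_mem (show w ∈ G.neighborSet v from hw)]
    · rw [stp_nadj hw, Set.indicator_of_notMem (show w ∉ G.neighborSet v from hw)]
  simp_rw [h1]
  rw [← tsum_subtype (G.neighborSet v) (fun _ => (dgr G v : ℝ≥0∞)⁻¹), ENNReal.tsum_set_const]
  have h2 : ((G.neighborSet v).encard : ℝ≥0∞) = dgr G v := by
    rw [← (h.2.2.2 v).cast_ncard_eq]
    rfl
  rw [h2, ENNReal.mul_inv_cancel (dgr_ne h v) (dgr_top v)]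

theorem dgr_stp (h : Okg G) (v w : V) :
    (dgr G v : ℝ≥0∞) * stp G v w = if G.Adj v w then 1 else 0 := by
  by_cases hw : G.Adj v w
  · rw [stp_adj hw, if_pos hw, ENNReal.mul_inv_cancel (dgr_ne h v) (dgr_top v)]
  · rw [stp_nadj hw, if_neg hw, mul_zero]

theorem dgr_stp_symm (h : Okg G) (v w : V) :
    (dgr G v : ℝ≥0∞) * stp G v w = (dgr G w : ℝ≥0∞) * stp G w v := by
  rw [dgr_stp h, dgr_stp h]
  simp only [G.adj_comm]

theorem pn_sum (h : Okg G) (n : ℕ) (v : V) : ∑' w, pn G n v w = 1 := by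
  induction n generalizing v with
  | zero => simp [pn]
  | succ n ih =>
    simp only [pn]
    rw [ENNReal.tsum_comm]
    simp_rw [ENNReal.tsum_mul_left, ih, mul_one]
    exact stp_sum h v

theorem pn_succ' (n : ℕ) (v w : V) : pn G (n + 1) v w = ∑' z, pn G n v z * stp G z w := by
  induction n generalizing v w with
  | zero =>
    have e1 : pn G (0 + 1) v w = ∑' z, stp G v z * (if z = w then 1 else 0) := rfl
    have e2 : ∀ z, pn G 0 v z = if v = z then 1 else 0 := fun z => rfl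
    rw [e1, tsum_eq_single w (fun z hz => by rw [if_neg hz, mul_zero]), if_pos rfl, mul_one,
      tsum_eq_single v (fun z hz => by rw [e2, if_neg (Ne.symm hz), zero_mul]), e2, if_pos rfl,
      one_mul]
  | succ n ih =>
    have h2 : ∀ z, pn G (n + 1) v z = ∑' y, stp G v y * pn G n y z := fun z => rfl
    calc pn G (n + 1 + 1) v w = ∑' z, stp G v z * pn G (n + 1) z w := rfl
      _ = ∑' z, ∑' y, stp G v z * (pn G n z y * stp G y w) := by
          refine tsum_congr fun z => ?_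
          rw [ih, ENNReal.tsum_mul_left]
      _ = ∑' y, ∑' z, stp G v z * (pn G n z y * stp G y w) := ENNReal.tsum_comm
      _ = ∑' y, pn G (n + 1) v y * stp G y w := by
          refine tsum_congr fun y => ?_
          rw [h2, ← ENNReal.tsum_mul_right]
          exact tsum_congr fun z => (mul_assoc _ _ _).symm

theorem pn_symm (h : Okg G) (n : ℕ) (v w : V) :
    (dgr G v : ℝ≥0∞) * pn G n v w = (dgr G w : ℝ≥0∞) * pn G n w v := by
  induction n generalizing v w with
  | zero =>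
    by_cases hvw : v = w
    · subst hvw; rfl
    · simp [pn, hvw, Ne.symm hvw]
  | succ n ih =>
    rw [pn_succ' n w v]
    simp only [pn]
    rw [← ENNReal.tsum_mul_left, ← ENNReal.tsum_mul_left]
    refine tsum_congr fun z => ?_
    rw [← mul_assoc, dgr_stp_symm h v z, mul_comm (dgr G z : ℝ≥0∞), mul_assoc, ih z w,
      ← mul_assoc, ← mul_assoc, mul_comm]
    ring

theorem pn_le (h : Okg G) (n : ℕ) (v w : V) : pn G n v w ≤ 1 := by
  rw [← pn_sum h n v]
  exact ENNReal.le_tsum w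

theorem dgr_pn_sum (h : Okg G) (n : ℕ) (w : V) :
    ∑' v, (dgr G v : ℝ≥0∞) * pn G n v w = dgr G w := by
  simp_rw [pn_symm h n _ w, ENNReal.tsum_mul_left, pn_sum h, mul_one]

theorem kp_ne_zero (k : ℕ) : kp k ≠ 0 := by
  unfold kp
  simp only [ne_eq, ENNReal.inv_eq_zero]
  finiteness

theorem kp_le_one (k : ℕ) : kp k ≤ 1 := by
  unfold kp
  rw [ENNReal.inv_le_one]
  exact le_add_left (by norm_num)

theorem kp_ne_top (k : ℕ) : kp k ≠ ⊤ := ne_top_of_le_ne_top ENNReal.one_ne_top (kp_le_one k)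

theorem geo (k : ℕ) : ∑' n : ℕ, (1 - kp k) ^ n = (kp k)⁻¹ := by
  rw [ENNReal.tsum_geometric, ENNReal.sub_sub_cancel ENNReal.one_ne_top (kp_le_one k)]

theorem geo1 (k : ℕ) : kp k * ∑' n : ℕ, (1 - kp k) ^ n = 1 := by
  rw [geo, ENNReal.mul_inv_cancel (kp_ne_zero k) (kp_ne_top k)]

/-- the Green function -/
noncomputable def gE (G : SimpleGraph V) (k : ℕ) (v w : V) : ℝ≥0∞ :=
  ∑' n : ℕ, (1 - kp k) ^ n * pn G n v w

theorem ab_eq (k : ℕ) (v w : V) : ab G k v w = kp k * gE G k v w := by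
  unfold ab gE
  rw [← ENNReal.tsum_mul_left]
  simp_rw [mul_assoc]

theorem gE_le (h : Okg G) (k : ℕ) (v w : V) : gE G k v w ≤ (kp k)⁻¹ := by
  rw [← geo]
  unfold gE
  exact ENNReal.tsum_le_tsum fun n => mul_le_of_le_one_right' (pn_le h n v w)

theorem gE_ne_top (h : Okg G) (k : ℕ) (v w : V) : gE G k v w ≠ ⊤ :=
  ne_top_of_le_ne_top (ENNReal.inv_ne_top.2 (kp_ne_zero k)) (gE_le h k v w)

theorem gE_sum (h : Okg G) (k : ℕ) (v : V) : ∑' w, gE G k v w = (kp k)⁻¹ := by
  unfold gE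
  rw [ENNReal.tsum_comm]
  simp_rw [ENNReal.tsum_mul_left, pn_sum h, mul_one]
  exact geo k

theorem gE_dgr (h : Okg G) (k : ℕ) (w : V) :
    ∑' v, (dgr G v : ℝ≥0∞) * gE G k v w = dgr G w * (kp k)⁻¹ := by
  unfold gE
  simp_rw [← ENNReal.tsum_mul_left]
  rw [ENNReal.tsum_comm]
  have h1 : ∀ n : ℕ, ∑' v, (dgr G v : ℝ≥0∞) * ((1 - kp k) ^ n * pn G n v w) =
      dgr G w * (1 - kp k) ^ n := by
    intro n
    have h2 : ∀ v, (dgr G v : ℝ≥0∞) * ((1 - kp k) ^ n * pn G n v w) =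
        (1 - kp k) ^ n * ((dgr G v : ℝ≥0∞) * pn G n v w) := by
      intro v; ring
    simp_rw [h2, ENNReal.tsum_mul_left, dgr_pn_sum h]
    ring
  simp_rw [h1, ENNReal.tsum_mul_left, geo]

theorem ab_sum (h : Okg G) (k : ℕ) (v : V) : ∑' w, ab G k v w = 1 := by
  simp_rw [ab_eq, ENNReal.tsum_mul_left, gE_sum h]
  exact ENNReal.mul_inv_cancel (kp_ne_zero k) (kp_ne_top k)

theorem ab_sum_left (h : Okg G) (k : ℕ) (w : V) : ∑' v, ab G k v w ≤ (dgr G w : ℝ≥0∞) := by
  calc ∑' v, ab G k v w ≤ ∑' v, kp k * ((dgr G v : ℝ≥0∞) * gE G k v w) := by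
        refine ENNReal.tsum_le_tsum fun v => ?_
        rw [ab_eq]
        gcongr
        exact le_mul_of_one_le_left' (one_le_dgr h v)
    _ = dgr G w := by
        rw [ENNReal.tsum_mul_left, gE_dgr h, mul_comm (dgr G w : ℝ≥0∞), ← mul_assoc,
          ENNReal.mul_inv_cancel (kp_ne_zero k) (kp_ne_top k), one_mul]

theorem gE_eq (k : ℕ) (v w : V) :
    gE G k v w = (if v = w then 1 else 0) + (1 - kp k) * ∑' z, stp G v z * gE G k z w := by
  have h1 : gE G k v w = (1 - kp k) ^ 0 * pn G 0 v w +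
      ∑' n : ℕ, (1 - kp k) ^ (n + 1) * pn G (n + 1) v w := by
    unfold gE
    exact tsum_eq_zero_add' ENNReal.summable
  rw [h1, pow_zero, one_mul]
  congr 1
  have h2 : ∀ n : ℕ, (1 - kp k) ^ (n + 1) * pn G (n + 1) v w =
      ∑' z, (1 - kp k) * (stp G v z * ((1 - kp k) ^ n * pn G n z w)) := by
    intro n
    simp only [pn]
    rw [← ENNReal.tsum_mul_left]
    refine tsum_congr fun z => ?_
    ring
  simp_rw [h2]
  rw [ENNReal.tsum_comm]
  simp_rw [ENNReal.tsum_mul_left]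
  rfl

theorem one_le_gE (k : ℕ) (x : V) : 1 ≤ gE G k x x := by
  rw [gE_eq, if_pos rfl]
  exact le_self_add

theorem gE_xx_ne_zero (k : ℕ) (x : V) : gE G k x x ≠ 0 := by
  have := one_le_gE (G := G) k x
  intro h
  rw [h] at this
  simp at this

/-- the Green function at a recurrent vertex tends to infinity -/
theorem gE_top (hR : Rec G) (x : V) :
    Tendsto (fun k => gE G k x x) atTop (𝓝 ⊤) := by
  rw [ENNReal.tendsto_nhds_top_iff_nnreal]
  intro b
  have h1 : (b : ℝ≥0∞) < ∑' n, pn G n x x := by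
    rw [hR x]
    exact ENNReal.coe_lt_top
  rw [ENNReal.tsum_eq_iSup_sum, lt_iSup_iff] at h1
  obtain ⟨s, hs⟩ := h1
  have hkp : Tendsto (fun k => kp k) atTop (𝓝 0) := by
    unfold kp
    have h3 : Tendsto (fun k : ℕ => (k : ℝ≥0∞) + 2) atTop (𝓝 ⊤) := by
      refine tendsto_of_tendsto_of_tendsto_of_le_of_le ENNReal.tendsto_nat_nhds_top
        tendsto_const_nhds (fun k => le_self_add) (fun k => le_top)
    have h4 := tendsto_inv_iff.2 h3
    simpa using h4
  have h1k : Tendsto (fun k => 1 - kp k) atTop (𝓝 1) := by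
    have h5 := ENNReal.Tendsto.sub (tendsto_const_nhds (x := (1 : ℝ≥0∞)) (f := atTop (α := ℕ)))
      hkp (Or.inl ENNReal.one_ne_top)
    simpa using h5
  have h2 : Tendsto (fun k => ∑ n ∈ s, (1 - kp k) ^ n * pn G n x x) atTop
      (𝓝 (∑ n ∈ s, (1 : ℝ≥0∞) ^ n * pn G n x x)) := by
    refine tendsto_finsetSum _ fun n _ => ?_
    refine ENNReal.Tendsto.mul_const ?_ (Or.inl (by simp))
    exact ((ENNReal.continuous_pow n).tendsto 1).comp h1k
  simp only [one_pow, one_mul] at h2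
  filter_upwards [h2.eventually_const_lt hs] with k hk
  exact hk.trans_le (ENNReal.sum_le_tsum s)

end Pool.Agent.Y857.WU
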